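import Mathlib
import Pool.Agent.H453Z.Defs
import Pool.Agent.H453Z.Main

set_option autoImplicit false

namespace Pool.Agent.Results.MP_eaea0b_co.AllGraphs

open H453Z

/-- Every finite connected multigraph `G`, loops allowed, has a one-sided Ramanujan `r`-covering
for every `r ≥ 2`. Here `ρ` is the spectral radius of the adjacency operator of the universal
covering tree on `ℓ²`, and the new spectrum is the multiset of eigenvalues of the covering minus
the multiset of eigenvalues of `G`. -/
theorem result {V E : Type} [Fintype V] [DecidableEq V] [Fintype E] (G : MGraph V E)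
    (hG : G.Connected) (o : V) :
    ∃ ρ : ℝ, IsL2Radius (G.TreeAdj o) ρ ∧
      ∀ r : ℕ, 2 ≤ r → ∃ σ : E × Bool → Equiv.Perm (Fin r),
        (∀ d, σ (MGraph.rev d) = (σ d)⁻¹) ∧
        ∀ μ ∈ (G.coverAdj σ).charpoly.roots - G.adj.charpoly.roots, μ ≤ ρ := by
  classical
  obtain ⟨A, hA⟩ := MGraph.exists_op (G := G) (o := o)
  exact ⟨(spectralRadius ℂ A).toReal,
    ⟨A, hA, (ENNReal.ofReal_toReal (MGraph.specRad_ne_top A)).symm, ENNReal.toReal_nonneg⟩,
    fun r hr => main G hG o hA r hr⟩

end Pool.Agent.Results.MP_eaea0b_co.AllGraphs
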